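import Mathlib

/-! # Algorithms that ask for determinants: the flat left by the answers -/

set_option autoImplicit false
set_option linter.unusedSectionVars false

open Module

namespace Pool.Agent.Y530.DQ

universe u v

/-- An algorithm that computes an element of `K` from a point of `K ^ σ` by asking for the values of
determinants of matrices whose entries are polynomials of degree at most one.  The next question
may depend in an arbitrary way on the answers to the earlier ones. -/
inductive Algo (K : Type u) [Field K] (σ : Type v) : Type (max u v)
  | output (a : K) : Algo K σ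
  | query (N : ℕ) (A : Matrix (Fin N) (Fin N) (MvPolynomial σ K))
      (hA : ∀ i j, (A i j).totalDegree ≤ 1) (next : K → Algo K σ) : Algo K σ

/-- The result of the algorithm at the point `x`. -/
noncomputable def Algo.run {K : Type u} [Field K] {σ : Type v} : Algo K σ → (σ → K) → K
  | .output a, _ => a
  | .query _ A _ next, x => (next (A.map (MvPolynomial.eval x)).det).run x

/-- The cost of the algorithm at the point `x`: the sum of the sizes of the determinants that it
asks for. -/
noncomputable def Algo.cost {K : Type u} [Field K] {σ : Type v} : Algo K σ → (σ → K) → ℕ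
  | .output _, _ => 0
  | .query N A _ next, x => N + (next (A.map (MvPolynomial.eval x)).det).cost x

/-- An affine-linear polynomial is its constant term plus a linear form, on all points. -/
theorem eval_of_totalDegree_le_one {K : Type*} [Field K] {τ : Type*} [Fintype τ] [DecidableEq τ]
    (p : MvPolynomial τ K) (hp : p.totalDegree ≤ 1) (x : τ → K) :
    MvPolynomial.eval x p = MvPolynomial.coeff 0 p +
      ∑ i, MvPolynomial.coeff (Finsupp.single i 1) p * x i := by
  rw [MvPolynomial.eval_eq']
  have hsub : p.support ⊆ insert 0 (Finset.univ.image (fun i : τ => Finsupp.single i 1)) := by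
    intro d hd
    rw [Finset.mem_insert, Finset.mem_image]
    have h1 : (d.sum fun _ e => e) ≤ 1 := le_trans (MvPolynomial.le_totalDegree hd) hp
    have hsum : (d.sum fun _ e => e) = ∑ i, d i := by
      rw [Finsupp.sum_fintype]
      intro i; rfl
    rw [hsum] at h1
    by_cases h0 : d = 0
    · exact Or.inl h0
    · right
      obtain ⟨i, hi⟩ : ∃ i, d i ≠ 0 := by
        by_contra hcon
        push Not at hcon
        exact h0 (Finsupp.ext hcon)
      refine ⟨i, Finset.mem_univ _, ?_⟩
      have h2 : d i ≤ ∑ j, d j := Finset.single_le_sum (fun j _ => Nat.zero_le _) (Finset.mem_univ i)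
      have h3 : d i = 1 := by omega
      ext j
      by_cases hij : i = j
      · subst hij; simp [h3]
      · rw [Finsupp.single_eq_of_ne (Ne.symm hij)]
        have h4 : d i + d j ≤ ∑ l, d l := by
          rw [← Finset.sum_pair hij]
          exact Finset.sum_le_sum_of_subset (Finset.subset_univ _)
        omega
  rw [Finset.sum_subset hsub]
  · rw [Finset.sum_insert, Finset.sum_image]
    · congr 1
      · simp
      · apply Finset.sum_congr rfl
        intro i _
        congr 1
        rw [Finset.prod_eq_single i]
        · simp
        · intro j _ hj
          rw [Finsupp.single_eq_of_ne hj, pow_zero]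
        · simp
    · intro i _ j _ hij
      exact Finsupp.single_left_injective one_ne_zero hij
    · rw [Finset.mem_image]
      rintro ⟨i, _, hi⟩
      have := DFunLike.congr_fun hi i
      simp at this
  · intro d _ hd
    rw [MvPolynomial.notMem_support_iff.mp hd, zero_mul]

variable {K : Type u} [Field K] {σ : Type v}

/-- the linear part of a polynomial of degree at most one -/
noncomputable def linPart [Fintype σ] (a : MvPolynomial σ K) : (σ → K) →ₗ[K] K :=
  ∑ i, (MvPolynomial.coeff (Finsupp.single i 1) a) • LinearMap.proj i

lemma eval_add_lin [Fintype σ] (a : MvPolynomial σ K) (ha : a.totalDegree ≤ 1)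
    (x v : σ → K) : MvPolynomial.eval (x + v) a = MvPolynomial.eval x a + linPart a v := by
  classical
  rw [eval_of_totalDegree_le_one a ha, eval_of_totalDegree_le_one a ha]
  simp only [linPart, LinearMap.sum_apply, LinearMap.smul_apply, LinearMap.proj_apply,
    Pi.add_apply, smul_eq_mul, mul_add, Finset.sum_add_distrib, add_assoc]

/-- a polynomial without zeros on a line is constant on it -/
lemma eval_line [IsAlgClosed K] (p : MvPolynomial σ K) (x v : σ → K)
    (h : ∀ t : K, MvPolynomial.eval (x + t • v) p ≠ 0) :
    MvPolynomial.eval (x + v) p = MvPolynomial.eval x p := by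
  set q : Polynomial K := MvPolynomial.eval₂ Polynomial.C
    (fun i => Polynomial.C (x i) + Polynomial.X * Polynomial.C (v i)) p with hq
  have he : ∀ t : K, q.eval t = MvPolynomial.eval (x + t • v) p := by
    intro t
    rw [hq, ← Polynomial.coe_evalRingHom, MvPolynomial.eval₂_comp_left, MvPolynomial.eval₂_eq_eval_map]
    have h1 : (Polynomial.evalRingHom t).comp (Polynomial.C : K →+* Polynomial K) = RingHom.id K := by
      ext a; simp
    rw [h1, MvPolynomial.map_id]
    congr 2
    funext i
    simp only [Function.comp_apply, Polynomial.coe_evalRingHom, Polynomial.eval_add, Polynomial.eval_C,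
      Polynomial.eval_mul, Polynomial.eval_X, Pi.add_apply, Pi.smul_apply, smul_eq_mul]
  have hdeg : q.degree = 0 := by
    by_contra hcon
    obtain ⟨t, ht⟩ := IsAlgClosed.exists_root q hcon
    exact h t ((he t).symm.trans ht)
  have hc := Polynomial.eq_C_of_degree_eq_zero hdeg
  have h1 := he 1
  have h0 := he 0
  rw [hc, Polynomial.eval_C] at h1 h0
  rw [one_smul] at h1
  rw [zero_smul, add_zero] at h0
  rw [← h1, ← h0]

/-- **The flat left by the answers.** -/
theorem Algo.exists_flat [IsAlgClosed K] [Fintype σ] (T : Algo K σ) :
    ∀ (x : σ → K) (V : Submodule K (σ → K)), ∃ (y : σ → K) (W : Submodule K (σ → K)),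
      y - x ∈ V ∧ W ≤ V ∧ finrank K V ≤ finrank K W + T.cost y ∧
      ∀ w ∈ W, T.run (y + w) = T.run y := by
  induction T with
  | output a =>
    intro x V
    exact ⟨x, V, by simp, le_rfl, by simp, fun w _ => rfl⟩
  | query N A hA next ih =>
    intro x V
    by_cases hz : ∃ v ∈ V, MvPolynomial.eval (x + v) A.det = 0
    · obtain ⟨v, hv, hzero⟩ := hz
      have hdet : (A.map (MvPolynomial.eval (x + v))).det = 0 := by
        rw [← RingHom.mapMatrix_apply, ← RingHom.map_det]
        exact hzero
      obtain ⟨u, hu0, hu⟩ := Matrix.exists_mulVec_eq_zero_iff.mpr hdet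
      -- the linear conditions
      let φ : (σ → K) →ₗ[K] (Fin N → K) :=
        LinearMap.pi fun i => ∑ j, (u j) • linPart (A i j)
      let V₁ : Submodule K (σ → K) := V ⊓ LinearMap.ker φ
      have hdetV : ∀ w ∈ V₁, (A.map (MvPolynomial.eval (x + v + w))).det = 0 := by
        intro w hw
        apply Matrix.exists_mulVec_eq_zero_iff.mp
        refine ⟨u, hu0, ?_⟩
        have hφ : φ w = 0 := hw.2
        funext i
        have h1 := congrFun hu i
        have h2 := congrFun hφ i
        simp only [φ, LinearMap.pi_apply, LinearMap.sum_apply, LinearMap.smul_apply, smul_eq_mul,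
          Pi.zero_apply] at h2
        simp only [Matrix.mulVec, dotProduct, Matrix.map_apply, Pi.zero_apply] at h1 ⊢
        simp only [eval_add_lin _ (hA _ _) (x + v) w, add_mul, Finset.sum_add_distrib]
        rw [h1, zero_add, ← h2]
        exact Finset.sum_congr rfl fun j _ => mul_comm _ _
      obtain ⟨y, W, hy, hW, hdim, hrun⟩ := ih 0 (x + v) V₁
      have hyV : (y - (x + v)) ∈ V₁ := hy
      have hy0 : (A.map (MvPolynomial.eval y)).det = 0 := by
        have := hdetV _ hyV
        rwa [add_sub_cancel] at this
      refine ⟨y, W, ?_, hW.trans inf_le_left, ?_, ?_⟩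
      · have : y - x = (y - (x + v)) + v := by abel
        rw [this]
        exact V.add_mem hyV.1 hv
      · have h1 : finrank K V ≤ finrank K V₁ + N := by
          have h2 := LinearMap.finrank_range_add_finrank_ker (φ.domRestrict V)
          have h3 : finrank K (LinearMap.range (φ.domRestrict V)) ≤ N := by
            calc _ ≤ finrank K (Fin N → K) := Submodule.finrank_le _
              _ = N := by simp
          have h4 : finrank K (LinearMap.ker (φ.domRestrict V)) ≤ finrank K V₁ := by
            have h5 : (LinearMap.ker (φ.domRestrict V)).map V.subtype ≤ V₁ := by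
              rintro _ ⟨a, ha, rfl⟩
              exact ⟨a.2, ha⟩
            calc finrank K (LinearMap.ker (φ.domRestrict V))
                = finrank K ((LinearMap.ker (φ.domRestrict V)).map V.subtype) :=
                  (Submodule.equivSubtypeMap _ _).finrank_eq
              _ ≤ finrank K V₁ := Submodule.finrank_mono h5
          omega
        have h2 : (Algo.query N A hA next).cost y = N + (next 0).cost y := by
          simp only [Algo.cost, hy0]
        rw [h2]
        omega
      · intro w hw
        have h1 : (A.map (MvPolynomial.eval (y + w))).det = 0 := by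
          have := hdetV _ (V₁.add_mem hyV (hW hw))
          rwa [← add_assoc, add_sub_cancel] at this
        simp only [Algo.run, hy0, h1]
        exact hrun w hw
    · push Not at hz
      have hconst : ∀ v ∈ V, (A.map (MvPolynomial.eval (x + v))).det =
          (A.map (MvPolynomial.eval x)).det := by
        intro v hv
        rw [← RingHom.mapMatrix_apply, ← RingHom.mapMatrix_apply, ← RingHom.map_det,
          ← RingHom.map_det]
        exact eval_line _ _ _ fun t => hz _ (V.smul_mem t hv)
      obtain ⟨y, W, hy, hW, hdim, hrun⟩ := ih (A.map (MvPolynomial.eval x)).det x V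
      have hy0 : (A.map (MvPolynomial.eval y)).det = (A.map (MvPolynomial.eval x)).det := by
        have := hconst _ hy
        rwa [add_sub_cancel] at this
      refine ⟨y, W, hy, hW, ?_, ?_⟩
      · have h2 : (Algo.query N A hA next).cost y =
            N + (next (A.map (MvPolynomial.eval x)).det).cost y := by
          simp only [Algo.cost, hy0]
        rw [h2]
        omega
      · intro w hw
        have h1 : (A.map (MvPolynomial.eval (y + w))).det = (A.map (MvPolynomial.eval x)).det := by
          have := hconst _ (V.add_mem hy (hW hw))
          rwa [← add_assoc, add_sub_cancel] at this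
        simp only [Algo.run, hy0, h1]
        exact hrun w hw

end Pool.Agent.Y530.DQ
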