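import Pool.Agent.H546R2.SM.B1

/-! # A quadratic form as a permanent -/

set_option autoImplicit false
set_option linter.unusedSectionVars false

open MvPolynomial Finset

namespace Pool.Agent.Y530.DQ

open Pool.Agent.H546R2.SL (eps lin eps_add eps_sum eps_C_mul eps_one eps_mul eps_lin_mul
  permanent_eq)
open Pool.Agent.H546R2.SM (bl eps_bl_pow eps_absorb)

section Small

variable {R : Type*} [CommRing R] {ρ γ : Type*} [DecidableEq ρ] [DecidableEq γ] [Fintype γ]

lemma eps_step (S : Finset γ) (a : γ → R) (g : MvPolynomial γ R) :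
    eps S ((1 + lin a) * g) = eps S g + ∑ c ∈ S, a c * eps (S.erase c) g := by
  rw [add_mul, one_mul, eps_add, eps_lin_mul]

lemma eps0 (I : Finset ρ) (a : ρ → γ → R) : eps ∅ (∏ i ∈ I, (1 + lin (a i))) = 1 := by
  induction I using Finset.induction_on with
  | empty => rw [Finset.prod_empty, eps_one, if_pos rfl]
  | insert i I hi ih => rw [Finset.prod_insert hi, eps_step, ih, Finset.sum_empty, add_zero]

lemma eps1 (I : Finset ρ) (a : ρ → γ → R) (j : γ) :
    eps {j} (∏ i ∈ I, (1 + lin (a i))) = ∑ i ∈ I, a i j := by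
  induction I using Finset.induction_on with
  | empty =>
    rw [Finset.prod_empty, eps_one, if_neg (Finset.singleton_ne_empty j), Finset.sum_empty]
  | insert i I hi ih =>
    rw [Finset.prod_insert hi, eps_step, ih, Finset.sum_singleton, Finset.sum_insert hi,
      Finset.erase_singleton, eps0, mul_one, add_comm]

lemma eps2 (I : Finset ρ) (a : ρ → γ → R) (j l : γ) (h : j ≠ l) :
    eps {j, l} (∏ i ∈ I, (1 + lin (a i))) =
      (∑ i ∈ I, a i j) * (∑ i ∈ I, a i l) - ∑ i ∈ I, a i j * a i l := by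
  induction I using Finset.induction_on with
  | empty =>
    rw [Finset.prod_empty, eps_one, if_neg (Finset.insert_ne_empty _ _)]
    simp
  | insert i I hi ih =>
    rw [Finset.prod_insert hi, eps_step, ih, Finset.sum_pair h, Finset.sum_insert hi,
      Finset.sum_insert hi, Finset.sum_insert hi]
    have h1 : ({j, l} : Finset γ).erase j = {l} := by
      rw [Finset.erase_insert (by simpa using h)]
    have h2 : ({j, l} : Finset γ).erase l = {j} := by
      rw [Finset.pair_comm, Finset.erase_insert (by simpa using h.symm)]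
    rw [h1, h2, eps1, eps1]
    ring

end Small

section Pairs

variable {R : Type*} [CommRing R] {α β : Type*} [Fintype α] [DecidableEq α] [DecidableEq β]

/-- sums over two element sets and sums over ordered pairs -/
lemma sum_pairs (e : α ↪ β) (G : Finset β → R) :
    2 * ∑ T ∈ (Finset.univ.map e).powersetCard 2, G T =
      ∑ j, ∑ l, if j ≠ l then G {e j, e l} else 0 := by
  classical
  rw [← Finset.sum_product', ← Finset.sum_filter, Finset.mul_sum]
  have hmaps : ∀ p ∈ (Finset.univ ×ˢ Finset.univ : Finset (α × α)).filter (fun p => p.1 ≠ p.2),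
      ({e p.1, e p.2} : Finset β) ∈ (Finset.univ.map e).powersetCard 2 := by
    intro p hp
    rw [Finset.mem_filter] at hp
    rw [Finset.mem_powersetCard]
    constructor
    · intro x hx
      rw [Finset.mem_insert, Finset.mem_singleton] at hx
      rcases hx with rfl | rfl <;> simp
    · exact Finset.card_pair (fun hh => hp.2 (e.injective hh))
  rw [← Finset.sum_fiberwise_of_maps_to hmaps]
  apply Finset.sum_congr rfl
  intro T hT
  rw [Finset.mem_powersetCard] at hT
  obtain ⟨x, y, hxy, rfl⟩ := Finset.card_eq_two.mp hT.2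
  obtain ⟨j, _, rfl⟩ := Finset.mem_map.mp (hT.1 (Finset.mem_insert_self x {y}))
  obtain ⟨l, _, rfl⟩ := Finset.mem_map.mp (hT.1 (Finset.mem_insert_of_mem
    (Finset.mem_singleton_self y)))
  have hjl : j ≠ l := fun hh => hxy (by rw [hh])
  have hset : ((Finset.univ ×ˢ Finset.univ : Finset (α × α)).filter (fun p => p.1 ≠ p.2)).filter
      (fun p => ({e p.1, e p.2} : Finset β) = {e j, e l}) = {(j, l), (l, j)} := by
    ext ⟨p, q⟩
    simp only [Finset.mem_filter, Finset.mem_product, Finset.mem_univ, true_and, ne_eq,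
      Finset.mem_insert, Finset.mem_singleton, Prod.mk.injEq]
    constructor
    · rintro ⟨hpq, heq⟩
      have h1 : e p ∈ ({e j, e l} : Finset β) := by rw [← heq]; simp
      have h2 : e q ∈ ({e j, e l} : Finset β) := by rw [← heq]; simp
      rw [Finset.mem_insert, Finset.mem_singleton, e.injective.eq_iff, e.injective.eq_iff] at h1 h2
      rcases h1 with rfl | rfl <;> rcases h2 with rfl | rfl
      · exact absurd rfl hpq
      · exact Or.inl ⟨rfl, rfl⟩
      · exact Or.inr ⟨rfl, rfl⟩
      · exact absurd rfl hpq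
    · rintro (⟨rfl, rfl⟩ | ⟨rfl, rfl⟩)
      · exact ⟨hjl, rfl⟩
      · exact ⟨hjl.symm, Finset.pair_comm _ _⟩
  rw [Finset.sum_congr rfl (fun p hp => by rw [(Finset.mem_filter.mp hp).2]), Finset.sum_const,
    hset, Finset.card_pair (by
      intro hh
      rw [Prod.mk.injEq] at hh
      exact hjl hh.1), nsmul_eq_mul]
  norm_num

end Pairs

section Big

variable {R : Type*} [CommRing R] {n n' k k' : ℕ}

/-- the matrix -/
def bigP (k k' : ℕ) (a : Fin n × Fin n' → R) : Fin n ⊕ Fin k' → Fin n' ⊕ Fin k → R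
  | .inl r, .inl c => a (r, c)
  | .inl _, .inr _ => 1
  | .inr _, .inl _ => 1
  | .inr _, .inr _ => 0

/-- the quadratic form -/
def quad (a : Fin n × Fin n' → R) : R :=
  (∑ j, ∑ i, a (i, j)) ^ 2 - ∑ j, (∑ i, a (i, j)) ^ 2 - ∑ i, (∑ j, a (i, j)) ^ 2 +
    ∑ i, ∑ j, a (i, j) ^ 2

theorem eps_bigP (a : Fin n × Fin n' → R) (hn : n = k + 2) (hn' : n' = k' + 2) :
    2 * eps Finset.univ (∏ r, lin (bigP k k' a r)) =
      (k.factorial : R) * (k'.factorial : R) * quad a := by
  classical
  set J : Finset (Fin n' ⊕ Fin k) := Finset.univ.map ⟨Sum.inl, Sum.inl_injective⟩ with hJ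
  set U : Finset (Fin n' ⊕ Fin k) := Finset.univ.map ⟨Sum.inr, Sum.inr_injective⟩ with hU
  have hdis : Disjoint J U := by
    rw [Finset.disjoint_left]
    intro x hx hx'
    obtain ⟨y, _, rfl⟩ := Finset.mem_map.mp hx
    obtain ⟨z, _, hz⟩ := Finset.mem_map.mp hx'
    simp at hz
  have hun : (Finset.univ : Finset (Fin n' ⊕ Fin k)) = U ∪ J := by
    ext x
    rcases x with x | x <;> simp [hJ, hU]
  have hJc : J.card = n' := by rw [hJ, Finset.card_map, Finset.card_univ, Fintype.card_fin]
  have hUc : U.card = k := by rw [hU, Finset.card_map, Finset.card_univ, Fintype.card_fin]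
  have h1 := eps_absorb U (Sum.elim (fun _ => (1 : R)) (fun _ => 0)) (bigP k k' a) (by
    intro r c hc
    obtain ⟨c', _, rfl⟩ := Finset.mem_map.mp hc
    rcases r with r | r <;> rfl) Finset.univ U J (Finset.Subset.refl U) hdis (by
      rw [hJc, hUc, Finset.card_univ, Fintype.card_sum, Fintype.card_fin, Fintype.card_fin]
      omega)
  rw [hun, h1, hUc, Fintype.prod_sum_type]
  simp only [Sum.elim_inl, Sum.elim_inr, map_one, map_zero, zero_add]
  have h2 : ∀ r : Fin k', lin (bigP k k' a (Sum.inr r)) = bl R J := by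
    intro r
    unfold bl
    congr 1
    funext c
    rcases c with c | c
    · simp [bigP, hJ]
    · simp [bigP, hJ]
  simp only [h2, Finset.prod_const, Finset.card_univ, Fintype.card_fin]
  rw [eps_mul]
  have h3 : ∀ T ∈ J.powerset, eps T (∏ r : Fin n, (1 + lin (bigP k k' a (Sum.inl r)))) *
      eps (J \ T) (bl R J ^ k') = if T.card = 2 then
        eps T (∏ r : Fin n, (1 + lin (bigP k k' a (Sum.inl r)))) * (k'.factorial : R) else 0 := by
    intro T hT
    rw [Finset.mem_powerset] at hT
    rw [eps_bl_pow]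
    have h4 := Finset.card_sdiff_add_card_eq_card hT
    by_cases h5 : T.card = 2
    · rw [if_pos h5, if_pos ⟨by omega, Finset.sdiff_subset⟩]
    · rw [if_neg h5, if_neg (by rintro ⟨h6, _⟩; omega), mul_zero]
  rw [Finset.sum_congr rfl h3, ← Finset.sum_filter]
  have h4 : J.powerset.filter (fun T => T.card = 2) = J.powersetCard 2 := by
    ext T
    simp [Finset.mem_powersetCard]
  rw [h4, ← Finset.sum_mul]
  have h5 := sum_pairs (⟨Sum.inl, Sum.inl_injective⟩ : Fin n' ↪ Fin n' ⊕ Fin k)
    (fun T => eps T (∏ r : Fin n, (1 + lin (bigP k k' a (Sum.inl r)))))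
  have h6 : ∑ j : Fin n', ∑ l : Fin n', (if j ≠ l then
      eps {(⟨Sum.inl, Sum.inl_injective⟩ : Fin n' ↪ Fin n' ⊕ Fin k) j,
        (⟨Sum.inl, Sum.inl_injective⟩ : Fin n' ↪ Fin n' ⊕ Fin k) l}
        (∏ r : Fin n, (1 + lin (bigP k k' a (Sum.inl r)))) else 0) = quad a := by
    have h7 : ∀ j l : Fin n', (if j ≠ l then
      eps {(⟨Sum.inl, Sum.inl_injective⟩ : Fin n' ↪ Fin n' ⊕ Fin k) j,
        (⟨Sum.inl, Sum.inl_injective⟩ : Fin n' ↪ Fin n' ⊕ Fin k) l}
        (∏ r : Fin n, (1 + lin (bigP k k' a (Sum.inl r)))) else 0) =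
      ((∑ i, a (i, j)) * (∑ i, a (i, l)) - ∑ i, a (i, j) * a (i, l)) -
        if j = l then ((∑ i, a (i, j)) ^ 2 - ∑ i, a (i, j) ^ 2) else 0 := by
      intro j l
      by_cases h : j = l
      · subst h
        rw [if_neg (by simp), if_pos rfl]
        simp only [sq]
        ring
      · rw [if_pos h, if_neg h, sub_zero, eps2 _ _ _ _ (by
          intro hh
          exact h (Sum.inl_injective hh))]
        rfl
    simp only [h7, Finset.sum_sub_distrib]
    unfold quad
    rw [sq, Finset.sum_mul_sum]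
    simp only [Finset.sum_ite_eq, Finset.mem_univ, if_true, Finset.sum_sub_distrib]
    have h8 : ∑ x : Fin n', ∑ y : Fin n', ∑ i : Fin n, a (i, x) * a (i, y) =
        ∑ i : Fin n, (∑ j : Fin n', a (i, j)) ^ 2 := by
      calc ∑ x : Fin n', ∑ y : Fin n', ∑ i : Fin n, a (i, x) * a (i, y)
          = ∑ x : Fin n', ∑ i : Fin n, ∑ y : Fin n', a (i, x) * a (i, y) :=
            Finset.sum_congr rfl fun x _ => Finset.sum_comm
        _ = ∑ i : Fin n, ∑ x : Fin n', ∑ y : Fin n', a (i, x) * a (i, y) := Finset.sum_comm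
        _ = _ := Finset.sum_congr rfl fun i _ => by rw [sq, Finset.sum_mul_sum]
    have h9 : ∑ x : Fin n', ∑ i : Fin n, a (i, x) ^ 2 = ∑ i : Fin n, ∑ j : Fin n', a (i, j) ^ 2 :=
      Finset.sum_comm
    rw [h8, h9]
    ring
  rw [h6] at h5
  calc 2 * ((k.factorial : R) * ((∑ T ∈ J.powersetCard 2,
          eps T (∏ r : Fin n, (1 + lin (bigP k k' a (Sum.inl r))))) * (k'.factorial : R)))
      = (k.factorial : R) * (k'.factorial : R) * (2 * ∑ T ∈ J.powersetCard 2,
          eps T (∏ r : Fin n, (1 + lin (bigP k k' a (Sum.inl r))))) := by ring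
    _ = _ := by rw [h5]

end Big

end Pool.Agent.Y530.DQ
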