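import Pool.Agent.Y530.DQ.Basic
import Pool.Agent.Y530.DQ.Perm

/-! # The determinantal query complexity of the permanent -/

set_option autoImplicit false
set_option linter.unusedSectionVars false

open Module

namespace Pool.Agent.Y530.DQ

universe u v

section Form

variable {K : Type u} [Field K] {n n' : ℕ}

/-- the polar form -/
noncomputable def bf : LinearMap.BilinForm K (Fin n × Fin n' → K) :=
  LinearMap.mk₂ K (fun a b =>
    (∑ j, ∑ i, a (i, j)) * (∑ j, ∑ i, b (i, j)) - ∑ j, (∑ i, a (i, j)) * (∑ i, b (i, j)) -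
      ∑ i, (∑ j, a (i, j)) * (∑ j, b (i, j)) + ∑ i, ∑ j, a (i, j) * b (i, j))
    (by
      intro a a' b
      simp only [Pi.add_apply, Finset.sum_add_distrib, add_mul]
      ring)
    (by
      intro c a b
      simp only [Pi.smul_apply, smul_eq_mul, ← Finset.mul_sum, mul_assoc]
      ring)
    (by
      intro a b b'
      simp only [Pi.add_apply, Finset.sum_add_distrib, mul_add]
      ring)
    (by
      intro c a b
      simp only [Pi.smul_apply, smul_eq_mul, ← Finset.mul_sum, mul_left_comm _ c]
      ring)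

lemma bf_apply (a b : Fin n × Fin n' → K) : bf a b =
    (∑ j, ∑ i, a (i, j)) * (∑ j, ∑ i, b (i, j)) - ∑ j, (∑ i, a (i, j)) * (∑ i, b (i, j)) -
      ∑ i, (∑ j, a (i, j)) * (∑ j, b (i, j)) + ∑ i, ∑ j, a (i, j) * b (i, j) := rfl

lemma bf_self (a : Fin n × Fin n' → K) : bf a a = quad a := by
  rw [bf_apply, quad]
  simp only [sq]

lemma bf_comm (a b : Fin n × Fin n' → K) : bf a b = bf b a := by
  rw [bf_apply, bf_apply]
  simp only [mul_comm]

lemma quad_add (a b : Fin n × Fin n' → K) : quad (a + b) = quad a + 2 * bf a b + quad b := by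
  rw [← bf_self, ← bf_self, ← bf_self]
  simp only [map_add, LinearMap.add_apply]
  rw [bf_comm b a]
  ring

/-- the form is not degenerate -/
lemma bf_nondeg (hn : ((n : K) - 1) ≠ 0) (hn' : ((n' : K) - 1) ≠ 0) (a : Fin n × Fin n' → K)
    (h : ∀ b, bf a b = 0) : a = 0 := by
  classical
  set T := ∑ j, ∑ i, a (i, j) with hT
  set r : Fin n → K := fun i => ∑ j, a (i, j) with hr
  set c : Fin n' → K := fun j => ∑ i, a (i, j) with hc
  have key : ∀ i j, T - c j - r i + a (i, j) = 0 := by
    intro i₀ j₀
    have h1 := h (Pi.single (i₀, j₀) 1)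
    rw [bf_apply] at h1
    have e1 : ∀ i j, (Pi.single (i₀, j₀) (1 : K) : Fin n × Fin n' → K) (i, j) =
        if i = i₀ then (if j = j₀ then 1 else 0) else 0 := by
      intro i j
      rw [Pi.single_apply]
      by_cases hi : i = i₀ <;> by_cases hj : j = j₀ <;> simp [hi, hj]
    simp only [e1] at h1
    simpa using h1
  have hsum1 : ∀ i, r i = T := by
    intro i
    have h1 : ∑ j, (T - c j - r i + a (i, j)) = 0 := Finset.sum_eq_zero fun j _ => key i j
    rw [Finset.sum_add_distrib, Finset.sum_sub_distrib, Finset.sum_sub_distrib] at h1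
    simp only [Finset.sum_const, Finset.card_univ, Fintype.card_fin, nsmul_eq_mul] at h1
    have h2 : ∑ j, c j = T := rfl
    have h3 : ∑ j, a (i, j) = r i := rfl
    rw [h2, h3] at h1
    have h4 : ((n' : K) - 1) * (T - r i) = 0 := by linear_combination h1
    rcases mul_eq_zero.mp h4 with h5 | h5
    · exact absurd h5 hn'
    · exact (sub_eq_zero.mp h5).symm
  have hT2 : T = ∑ i, r i := by
    rw [hT]
    exact Finset.sum_comm
  have hT0 : T = 0 := by
    have h1 : T = (n : K) * T := by
      conv_lhs => rw [hT2]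
      simp only [hsum1, Finset.sum_const, Finset.card_univ, Fintype.card_fin, nsmul_eq_mul]
    have h2 : ((n : K) - 1) * T = 0 := by linear_combination -h1
    rcases mul_eq_zero.mp h2 with h5 | h5
    · exact absurd h5 hn
    · exact h5
  have hc0 : ∀ j, c j = 0 := by
    intro j
    have h1 : ∑ i, (T - c j - r i + a (i, j)) = 0 := Finset.sum_eq_zero fun i _ => key i j
    rw [Finset.sum_add_distrib, Finset.sum_sub_distrib, Finset.sum_sub_distrib] at h1
    simp only [Finset.sum_const, Finset.card_univ, Fintype.card_fin, nsmul_eq_mul] at h1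
    have h3 : ∑ i, a (i, j) = c j := rfl
    rw [← hT2, h3, hT0] at h1
    have h4 : ((n : K) - 1) * c j = 0 := by linear_combination -h1
    rcases mul_eq_zero.mp h4 with h5 | h5
    · exact absurd h5 hn
    · exact h5
  funext ⟨i, j⟩
  have h1 := key i j
  rw [hc0, hsum1, hT0] at h1
  simpa using h1

/-- isotropic subspaces -/
lemma finrank_isotropic (hn : ((n : K) - 1) ≠ 0) (hn' : ((n' : K) - 1) ≠ 0)
    (W : Submodule K (Fin n × Fin n' → K)) (hW : ∀ a ∈ W, ∀ b ∈ W, bf a b = 0) :
    2 * finrank K W ≤ n * n' := by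
  have h1 := LinearMap.BilinForm.finrank_add_finrank_orthogonal' (B := bf (K := K) (n := n) (n' := n')) W
  have hker : LinearMap.ker (bf (K := K) (n := n) (n' := n')) = ⊥ := by
    rw [LinearMap.ker_eq_bot']
    intro a ha
    apply bf_nondeg hn hn'
    intro b
    rw [ha]
    rfl
  have hle : W ≤ (bf (K := K) (n := n) (n' := n')).orthogonal W := by
    intro a ha b hb
    exact hW b hb a ha
  have h2 := Submodule.finrank_mono hle
  have h3 : finrank K (Fin n × Fin n' → K) = n * n' := by simp
  have h4 : finrank K (W ⊓ LinearMap.ker (bf (K := K) (n := n) (n' := n')) : Submodule K _) = 0 := by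
    rw [hker, inf_bot_eq, finrank_bot]
  omega

end Form

section Emb

variable {K : Type u} [Field K] {m n n' k k' : ℕ}

/-- the permanent of the matrix with the entries `x (i, j)` -/
noncomputable def permOf (x : Fin m × Fin m → K) : K :=
  (Matrix.of fun i j : Fin m => x (i, j)).permanent

/-- the linear part of the embedding -/
noncomputable def embL (er : Fin m ≃ Fin n ⊕ Fin k') (ec : Fin m ≃ Fin n' ⊕ Fin k) :
    (Fin n × Fin n' → K) →ₗ[K] (Fin m × Fin m → K) :=
  LinearMap.pi fun p => match er p.1, ec p.2 with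
    | .inl r, .inl c => LinearMap.proj (r, c)
    | _, _ => 0

/-- the constant part of the embedding -/
def emb0 (er : Fin m ≃ Fin n ⊕ Fin k') (ec : Fin m ≃ Fin n' ⊕ Fin k) : Fin m × Fin m → K :=
  fun p => bigP k k' (0 : Fin n × Fin n' → K) (er p.1) (ec p.2)

lemma emb_apply (er : Fin m ≃ Fin n ⊕ Fin k') (ec : Fin m ≃ Fin n' ⊕ Fin k)
    (a : Fin n × Fin n' → K) (i j : Fin m) :
    (emb0 er ec + embL er ec a : Fin m × Fin m → K) (i, j) = bigP k k' a (er i) (ec j) := by
  simp only [Pi.add_apply, emb0, embL, LinearMap.pi_apply]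
  rcases er i with r | r <;> rcases ec j with c | c <;> simp [bigP]

lemma embL_injective (er : Fin m ≃ Fin n ⊕ Fin k') (ec : Fin m ≃ Fin n' ⊕ Fin k) :
    Function.Injective (embL (K := K) er ec) := by
  intro a b hab
  funext ⟨r, c⟩
  have h1 := congrFun hab (er.symm (.inl r), ec.symm (.inl c))
  simpa [embL] using h1

lemma permOf_emb (er : Fin m ≃ Fin n ⊕ Fin k') (ec : Fin m ≃ Fin n' ⊕ Fin k) (hn : n = k + 2)
    (hn' : n' = k' + 2) (a : Fin n × Fin n' → K) :
    2 * permOf (emb0 er ec + embL er ec a) = (k.factorial : K) * (k'.factorial : K) * quad a := by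
  rw [← eps_bigP a hn hn', ← Pool.Agent.H546R2.SL.permanent_eq (bigP k k' a) er ec]
  unfold permOf
  congr 2
  ext i j
  exact emb_apply er ec a i j

lemma permOf_eq_eval (x : Fin m × Fin m → K) : permOf x =
    MvPolynomial.eval x (Matrix.of fun i j : Fin m =>
      (MvPolynomial.X (i, j) : MvPolynomial (Fin m × Fin m) K)).permanent := by
  unfold permOf
  rw [Matrix.permanent, Matrix.permanent, map_sum]
  simp only [map_prod, Matrix.of_apply, MvPolynomial.eval_X]

/-- **The lower bound**, for algorithms which decide whether the permanent vanishes. -/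
theorem query_bound [IsAlgClosed K] (hm : 2 ≤ m) (hchar : (m.factorial : K) ≠ 0)
    (T : Algo K (Fin m × Fin m))
    (hT : ∀ x, T.run x = 0 ↔ permOf x = 0) : ∃ x, (m + 1) * (m + 3) ≤ 8 * T.cost x := by
  have hcast : ∀ j : ℕ, 1 ≤ j → j ≤ m → (j : K) ≠ 0 := by
    intro j h1 h2 h0
    apply hchar
    obtain ⟨c, hc⟩ := Nat.dvd_factorial h1 h2
    rw [hc, Nat.cast_mul, h0, zero_mul]
  have hfac : ∀ j : ℕ, j ≤ m → (j.factorial : K) ≠ 0 := by
    intro j h2 h0
    apply hchar
    obtain ⟨c, hc⟩ := Nat.factorial_dvd_factorial h2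
    rw [hc, Nat.cast_mul, h0, zero_mul]
  obtain ⟨t, ht⟩ : ∃ t, m / 2 = t := ⟨_, rfl⟩
  obtain ⟨k, hk⟩ : ∃ k, t = k + 1 := ⟨t - 1, by omega⟩
  obtain ⟨k', hk'⟩ : ∃ k', m - t = k' + 1 := ⟨m - t - 1, by omega⟩
  have hm2 : m = k + k' + 2 := by omega
  let er : Fin m ≃ Fin (k + 2) ⊕ Fin k' :=
    (finCongr (by omega : m = (k + 2) + k')).trans finSumFinEquiv.symm
  let ec : Fin m ≃ Fin (k' + 2) ⊕ Fin k :=
    (finCongr (by omega : m = (k' + 2) + k)).trans finSumFinEquiv.symm
  obtain ⟨y, W, hy, hW, hdim, hrun⟩ := T.exists_flat (emb0 er ec) (LinearMap.range (embL er ec))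
  obtain ⟨a₀, ha₀⟩ := hy
  have hy' : y = emb0 er ec + embL er ec a₀ := by rw [ha₀]; abel
  have hper : ∀ w ∈ W, permOf (y + w) = permOf y := by
    intro w hw
    by_cases h0 : T.run y = 0
    · rw [(hT y).mp h0, (hT (y + w)).mp (by rw [hrun w hw, h0])]
    · rw [permOf_eq_eval, permOf_eq_eval]
      apply eval_line
      intro t
      rw [← permOf_eq_eval]
      intro h1
      apply h0
      rw [← hrun (t • w) (W.smul_mem t hw)]
      exact (hT _).mpr h1
  have hc : (k.factorial : K) * (k'.factorial : K) ≠ 0 :=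
    mul_ne_zero (hfac k (by omega)) (hfac k' (by omega))
  have h2 : (2 : K) ≠ 0 := by
    have := hcast 2 (by omega) hm
    exact_mod_cast this
  have hquad : ∀ w ∈ W.comap (embL er ec), quad (a₀ + w) = quad a₀ := by
    intro w hw
    have h1 := hper _ hw
    rw [hy', add_assoc, ← map_add] at h1
    have h3 := permOf_emb (K := K) er ec rfl rfl (a₀ + w)
    have h4 := permOf_emb (K := K) er ec rfl rfl a₀
    rw [h1, h4] at h3
    exact (mul_left_cancel₀ hc h3).symm
  have hq0 : ∀ w ∈ W.comap (embL er ec), quad w = 0 := by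
    intro w hw
    have h1 := hquad w hw
    have h3 := hquad (-w) (Submodule.neg_mem _ hw)
    rw [quad_add] at h1 h3
    have h4 : quad (-w) = quad w := by
      rw [← bf_self, ← bf_self]
      simp
    rw [h4, map_neg] at h3
    have h5 : (2 : K) * quad w = 0 := by linear_combination h1 + h3
    exact (mul_eq_zero.mp h5).resolve_left h2
  have hiso : ∀ a ∈ W.comap (embL er ec), ∀ b ∈ W.comap (embL er ec), bf a b = 0 := by
    intro a ha b hb
    have h1 := hq0 _ (Submodule.add_mem _ ha hb)
    rw [quad_add, hq0 a ha, hq0 b hb] at h1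
    have h5 : (2 : K) * bf a b = 0 := by linear_combination h1
    exact (mul_eq_zero.mp h5).resolve_left h2
  have hn1 : (((k + 2 : ℕ) : K) - 1) ≠ 0 := by
    have : (((k + 2 : ℕ) : K) - 1) = ((k + 1 : ℕ) : K) := by push_cast; ring
    rw [this]
    exact hcast _ (by omega) (by omega)
  have hn2 : (((k' + 2 : ℕ) : K) - 1) ≠ 0 := by
    have : (((k' + 2 : ℕ) : K) - 1) = ((k' + 1 : ℕ) : K) := by push_cast; ring
    rw [this]
    exact hcast _ (by omega) (by omega)
  have h6 := finrank_isotropic hn1 hn2 _ hiso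
  have h7 : finrank K (W.comap (embL er ec)) = finrank K W := by
    rw [(Submodule.equivMapOfInjective _ (embL_injective er ec) (W.comap (embL er ec))).finrank_eq,
      Submodule.map_comap_eq_self hW]
  have h8 : finrank K (LinearMap.range (embL (K := K) er ec)) = (k + 2) * (k' + 2) := by
    rw [LinearMap.finrank_range_of_inj (embL_injective er ec)]
    simp
  refine ⟨y, ?_⟩
  rw [h8] at hdim
  rw [h7] at h6
  have h9 : (k + 2) * (k' + 2) ≤ 2 * T.cost y := by omega
  have h10 : k' = k ∨ k' = k + 1 := by omega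
  have h11 : (m + 1) * (m + 3) ≤ 4 * ((k + 2) * (k' + 2)) := by
    rw [hm2]
    rcases h10 with rfl | rfl
    · nlinarith
    · nlinarith
  omega

end Emb

section Ask

variable {K : Type u} [Field K] {σ : Type v} {s : ℕ}

/-- ask for the determinants `A i`, `i ∈ l`, and apply the function `g` to the answers -/
noncomputable def askAll (N : Fin s → ℕ)
    (A : (i : Fin s) → Matrix (Fin (N i)) (Fin (N i)) (MvPolynomial σ K))
    (hA : ∀ i a b, (A i a b).totalDegree ≤ 1) (g : (Fin s → K) → K) :
    List (Fin s) → (Fin s → K) → Algo K σ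
  | [], a => .output (g a)
  | i :: l, a => .query (N i) (A i) (hA i) fun t => askAll N A hA g l (Function.update a i t)

lemma run_askAll (N : Fin s → ℕ)
    (A : (i : Fin s) → Matrix (Fin (N i)) (Fin (N i)) (MvPolynomial σ K))
    (hA : ∀ i a b, (A i a b).totalDegree ≤ 1) (g : (Fin s → K) → K) (x : σ → K) :
    ∀ (l : List (Fin s)) (a : Fin s → K), l.Nodup → (askAll N A hA g l a).run x =
      g (fun i => if i ∈ l then ((A i).map (MvPolynomial.eval x)).det else a i) := by
  intro l
  induction l with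
  | nil => intro a _; simp [askAll, Algo.run]
  | cons i l ih =>
    intro a hnd
    rw [List.nodup_cons] at hnd
    simp only [askAll, Algo.run]
    rw [ih _ hnd.2]
    congr 1
    funext j
    by_cases hj : j = i
    · subst hj
      rw [if_neg hnd.1, if_pos List.mem_cons_self, Function.update_self]
    · rw [Function.update_of_ne hj]
      simp [hj]

lemma cost_askAll (N : Fin s → ℕ)
    (A : (i : Fin s) → Matrix (Fin (N i)) (Fin (N i)) (MvPolynomial σ K))
    (hA : ∀ i a b, (A i a b).totalDegree ≤ 1) (g : (Fin s → K) → K) (x : σ → K) :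
    ∀ (l : List (Fin s)) (a : Fin s → K), (askAll N A hA g l a).cost x = (l.map N).sum := by
  intro l
  induction l with
  | nil => intro a; simp [askAll, Algo.cost]
  | cons i l ih =>
    intro a
    simp only [askAll, Algo.cost, List.map_cons, List.sum_cons]
    rw [ih]

/-- all questions asked at once -/
theorem exists_ask (N : Fin s → ℕ)
    (A : (i : Fin s) → Matrix (Fin (N i)) (Fin (N i)) (MvPolynomial σ K))
    (hA : ∀ i a b, (A i a b).totalDegree ≤ 1) (g : (Fin s → K) → K) :
    ∃ T : Algo K σ, (∀ x, T.run x = g (fun i => ((A i).map (MvPolynomial.eval x)).det)) ∧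
      ∀ x, T.cost x = ∑ i, N i := by
  refine ⟨askAll N A hA g (List.finRange s) (fun _ => 0), fun x => ?_, fun x => ?_⟩
  · rw [run_askAll _ _ _ _ _ _ _ (List.nodup_finRange s)]
    simp
  · rw [cost_askAll, ← List.ofFn_eq_map, List.sum_ofFn]

end Ask

lemma totalDegree_map_le' {R S τ : Type*} [CommSemiring R] [CommSemiring S] (f : R →+* S)
    (p : MvPolynomial τ R) : (MvPolynomial.map f p).totalDegree ≤ p.totalDegree :=
  Finset.sup_mono (MvPolynomial.support_map_subset f p)

/-- polynomials in determinants over an arbitrary field -/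
theorem poly_bound (k : Type u) [Field k] (m : ℕ) (hm : 2 ≤ m) (hchar : (m.factorial : k) ≠ 0)
    (s : ℕ) (N : Fin s → ℕ)
    (A : (i : Fin s) → Matrix (Fin (N i)) (Fin (N i)) (MvPolynomial (Fin m × Fin m) k))
    (hA : ∀ i a b, (A i a b).totalDegree ≤ 1) (F : MvPolynomial (Fin s) k)
    (h : MvPolynomial.aeval (fun i => (A i).det) F =
      (Matrix.of fun i j : Fin m => (MvPolynomial.X (i, j) : MvPolynomial (Fin m × Fin m) k)).permanent) :
    (m + 1) * (m + 3) ≤ 8 * ∑ i, N i := by
  set Ω := AlgebraicClosure k with hΩ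
  set f : k →+* Ω := algebraMap k Ω with hf
  have hchar' : (m.factorial : Ω) ≠ 0 := by
    rw [← map_natCast (algebraMap k Ω)]
    exact (map_ne_zero_iff _ (algebraMap k Ω).injective).mpr hchar
  let A' : (i : Fin s) → Matrix (Fin (N i)) (Fin (N i)) (MvPolynomial (Fin m × Fin m) Ω) :=
    fun i => (A i).map (MvPolynomial.map f)
  have hA' : ∀ i a b, (A' i a b).totalDegree ≤ 1 := fun i a b =>
    (totalDegree_map_le' f _).trans (hA i a b)
  obtain ⟨T, hrun, hcost⟩ := exists_ask N A' hA' (fun y => MvPolynomial.eval y (MvPolynomial.map f F))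
  obtain ⟨x, hx⟩ := query_bound hm hchar' T (by
    intro x
    suffices h : T.run x = permOf x by rw [h]
    rw [hrun]
    have h1 := congrArg (MvPolynomial.eval₂Hom f x) h
    rw [Matrix.permanent, map_sum] at h1
    simp only [map_prod, Matrix.of_apply, MvPolynomial.coe_eval₂Hom, MvPolynomial.eval₂_X] at h1
    unfold permOf
    rw [Matrix.permanent]
    simp only [Matrix.of_apply]
    rw [← h1, MvPolynomial.aeval_def, MvPolynomial.eval_map]
    change MvPolynomial.eval₂ f _ F = (MvPolynomial.eval₂Hom f x) (MvPolynomial.eval₂ _ _ F)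
    rw [MvPolynomial.hom_eval₂]
    congr 1
    · ext a; simp
    · funext i
      rw [MvPolynomial.coe_eval₂Hom, ← MvPolynomial.coe_eval₂Hom, RingHom.map_det]
      congr 1
      ext a b
      simp only [A', Matrix.map_apply, RingHom.mapMatrix_apply, MvPolynomial.coe_eval₂Hom,
        MvPolynomial.eval_map])
  rw [hcost] at hx
  exact hx

/-- the trivial algorithm -/
theorem exists_trivial (K : Type u) [Field K] (m : ℕ) :
    ∃ T : Algo K (Fin m × Fin m), (∀ x, T.run x = permOf x) ∧ ∀ x, T.cost x = m ^ 2 := by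
  let e : Fin (m * m) ≃ Fin m × Fin m := finProdFinEquiv.symm
  obtain ⟨T, hrun, hcost⟩ := exists_ask (K := K) (σ := Fin m × Fin m) (s := m * m) (fun _ => 1)
    (fun i => Matrix.of fun _ _ => MvPolynomial.X (e i))
    (fun i a b => by
      rw [Matrix.of_apply]
      exact (MvPolynomial.totalDegree_X _).le) (fun y => permOf fun p => y (e.symm p))
  refine ⟨T, fun x => ?_, fun x => ?_⟩
  · rw [hrun]
    congr 1
    funext p
    simp
  · rw [hcost]
    simp [sq]

end Pool.Agent.Y530.DQ
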